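import Pool.Agent.Q119.Clo.Words

set_option autoImplicit false

/-!
Chain conditions for families of subgroups of `(Fin (n + 1) → Γ) → M` closed under repetition of
letters.
-/

namespace Pool.Agent.Q119.Clo

universe u v

variable {Γ : Type u}

section order

variable [LinearOrder Γ]

/-- The lexicographic order of words of a fixed length. -/
def LexLt {n : ℕ} (x y : Fin (n + 1) → Γ) : Prop := ∃ i, (∀ j < i, x j = y j) ∧ x i < y i

theorem lexLt_iff {n : ℕ} (x y : Fin (n + 1) → Γ) : LexLt x y ↔ toLex x < toLex y := Iff.rfl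

theorem LexLt.comp {m n : ℕ} (a : Adm m n) {x y : Fin (n + 1) → Γ} (h : LexLt x y) :
    LexLt (x ∘ a.s) (y ∘ a.s) := by
  obtain ⟨i, hi, hlt⟩ := h
  refine ⟨a.f i, fun j hj => ?_, ?_⟩
  · apply hi
    have := (a.le j).trans_lt hj
    exact a.mono.lt_iff_lt.1 this
  · simpa [a.sec] using hlt

theorem LexLt.irrefl {n : ℕ} (x : Fin (n + 1) → Γ) : ¬ LexLt x x :=
  fun ⟨_, _, h⟩ => lt_irrefl _ h

theorem LexLt.trans {n : ℕ} {x y z : Fin (n + 1) → Γ} (h1 : LexLt x y) (h2 : LexLt y z) :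
    LexLt x z := by
  rw [lexLt_iff] at *
  exact _root_.lt_trans h1 h2

theorem LexLt.trichotomy {n : ℕ} (x y : Fin (n + 1) → Γ) : LexLt x y ∨ x = y ∨ LexLt y x := by
  rw [lexLt_iff, lexLt_iff]
  rcases lt_trichotomy (toLex x) (toLex y) with h | h | h
  · exact Or.inl h
  · exact Or.inr (Or.inl (toLex.injective h))
  · exact Or.inr (Or.inr h)

/-- A function which is not zero has a largest word in its support. -/
theorem exists_lead [Finite Γ] {M : Type v} [Zero M] {n : ℕ} (f : (Fin (n + 1) → Γ) → M)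
    (hf : f ≠ 0) : ∃ w, f w ≠ 0 ∧ ∀ x, LexLt w x → f x = 0 := by
  have : Finite (Lex (Fin (n + 1) → Γ)) := inferInstanceAs (Finite (Fin (n + 1) → Γ))
  have hfin : (Set.univ : Set (Lex (Fin (n + 1) → Γ))).Finite := Set.finite_univ
  obtain ⟨w₀, hw₀⟩ := Function.ne_iff.1 hf
  obtain ⟨w, hw, hmax⟩ := Set.Finite.exists_maximalFor (fun w : Lex (Fin (n + 1) → Γ) => w)
    {w : Lex (Fin (n + 1) → Γ) | f (ofLex w) ≠ 0} (hfin.subset (Set.subset_univ _))
    ⟨toLex w₀, hw₀⟩
  refine ⟨ofLex w, hw, fun x hx => ?_⟩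
  by_contra hne
  have h1 : w < toLex x := hx
  have := hmax (j := toLex x) hne h1.le
  exact absurd h1 (not_lt.2 this)

end order

section dcc

variable {M : Type v} [AddCommGroup M]

/-- Families of subgroups closed under the substitutions dual to the repetition of letters. -/
def Contra (C : ∀ n, AddSubgroup ((Fin (n + 1) → Γ) → M)) : Prop :=
  ∀ m n (a : Adm m n) (f : (Fin (m + 1) → Γ) → M), f ∈ C m → (fun x => f (x ∘ a.s)) ∈ C n

variable [LinearOrder Γ]

/-- The leading coefficients at the word `w`. -/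
def lc (C : ∀ n, AddSubgroup ((Fin (n + 1) → Γ) → M)) (w : Word Γ) : AddSubgroup M where
  carrier := {b | ∃ f ∈ C w.1, f w.2 = b ∧ ∀ x, LexLt w.2 x → f x = 0}
  zero_mem' := ⟨0, (C w.1).zero_mem, rfl, fun _ _ => rfl⟩
  add_mem' := by
    rintro a b ⟨f, hf, rfl, h1⟩ ⟨g, hg, rfl, h2⟩
    exact ⟨f + g, (C w.1).add_mem hf hg, rfl, fun x hx => by simp [h1 x hx, h2 x hx]⟩
  neg_mem' := by
    rintro a ⟨f, hf, rfl, h1⟩
    exact ⟨-f, (C w.1).neg_mem hf, rfl, fun x hx => by simp [h1 x hx]⟩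

theorem lc_anti {C : ∀ n, AddSubgroup ((Fin (n + 1) → Γ) → M)} (hC : Contra C) {v w : Word Γ}
    (h : Le v w) : lc C w ≤ lc C v := by
  obtain ⟨a, ha⟩ := h
  rintro b ⟨f, hf, rfl, h1⟩
  refine ⟨fun x => f (x ∘ a.s), hC _ _ a f hf, ?_, fun x hx => ?_⟩
  · change f (v.2 ∘ a.s) = f w.2
    rw [ha]
  · apply h1
    rw [ha]
    exact hx.comp a

theorem lc_mono {C D : ∀ n, AddSubgroup ((Fin (n + 1) → Γ) → M)} (h : ∀ n, C n ≤ D n)
    (w : Word Γ) : lc C w ≤ lc D w := by
  rintro b ⟨f, hf, hfb, h1⟩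
  exact ⟨f, h _ hf, hfb, h1⟩

theorem eq_of_lc [Finite Γ] {C D : ∀ n, AddSubgroup ((Fin (n + 1) → Γ) → M)}
    (h : ∀ n, C n ≤ D n) (hl : ∀ w, lc D w ≤ lc C w) (n : ℕ) : C n = D n := by
  refine le_antisymm (h n) ?_
  -- induction along the lexicographic order
  have hwf : WellFounded (LexLt : (Fin (n + 1) → Γ) → (Fin (n + 1) → Γ) → Prop) := by
    have : IsTrans (Fin (n + 1) → Γ) LexLt := ⟨fun _ _ _ => LexLt.trans⟩
    have : Std.Irrefl (LexLt : (Fin (n + 1) → Γ) → (Fin (n + 1) → Γ) → Prop) := ⟨LexLt.irrefl⟩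
    exact Finite.wellFounded_of_trans_of_irrefl _
  have key : ∀ w : Fin (n + 1) → Γ, ∀ f ∈ D n, (∀ x, LexLt w x → f x = 0) → f ∈ C n := by
    intro w
    induction w using hwf.induction with
    | _ w ih =>
      intro f hf hz
      obtain ⟨g, hg, hgw, hgz⟩ := hl ⟨n, w⟩ ⟨f, hf, rfl, hz⟩
      have hfg : f - g ∈ C n := by
        by_cases h0 : f - g = 0
        · rw [h0]; exact (C n).zero_mem
        · obtain ⟨w', hw', hmax⟩ := exists_lead (f - g) h0
          have hlt : LexLt w' w := by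
            rcases LexLt.trichotomy w' w with h1 | h1 | h1
            · exact h1
            · exfalso; apply hw'
              rw [h1]
              simpa [sub_eq_zero] using hgw.symm
            · exfalso; apply hw'
              simp [hz w' h1, hgz w' h1]
          exact ih w' hlt _ ((D n).sub_mem hf (h n hg)) hmax
      have := (C n).add_mem hfg hg
      simpa using this
  intro f hf
  by_cases h0 : f = 0
  · rw [h0]; exact (C n).zero_mem
  · obtain ⟨w, -, hmax⟩ := exists_lead f h0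
    exact key w f hf hmax

/-- The descending chain condition. -/
theorem dcc [Finite Γ] [Finite M] (C : ℕ → ∀ n, AddSubgroup ((Fin (n + 1) → Γ) → M))
    (hC : ∀ i, Contra (C i)) (hanti : ∀ i j, i ≤ j → ∀ n, C j n ≤ C i n) :
    ∃ i, C (i + 1) = C i := by
  by_contra hcon
  push Not at hcon
  have h1 : ∀ i, ∃ w : Word Γ, ¬ (lc (C i) w ≤ lc (C (i + 1)) w) := by
    intro i
    by_contra h
    push Not at h
    exact hcon i (funext fun n => eq_of_lc (hanti i (i + 1) (by omega)) h n)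
  choose w hw using h1
  obtain ⟨g, hg⟩ := (wqo_word (Γ := Γ)).exists_monotone_subseq w
  have hstrict : StrictAnti (fun j => lc (C (g j)) (w (g j))) := by
    apply strictAnti_nat_of_succ_lt
    intro j
    have e1 : lc (C (g (j + 1))) (w (g (j + 1))) ≤ lc (C (g (j + 1))) (w (g j)) :=
      lc_anti (hC _) (hg _ _ (by omega))
    have hlt : g j < g (j + 1) := g.strictMono (by omega)
    have e2 : lc (C (g (j + 1))) (w (g j)) ≤ lc (C (g j + 1)) (w (g j)) :=
      lc_mono (hanti _ _ hlt) _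
    have e3 : lc (C (g j + 1)) (w (g j)) ≤ lc (C (g j)) (w (g j)) :=
      lc_mono (hanti _ _ (by omega)) _
    exact lt_of_le_of_lt (e1.trans e2) (lt_of_le_not_ge e3 (hw _))
  exact not_injective_infinite_finite _ hstrict.injective

end dcc

section acc

variable {K : Type v} [Field K]

open Classical in
/-- Push forward along the repetition of letters. -/
noncomputable def push {m n : ℕ} (a : Adm m n) (φ : (Fin (n + 1) → Γ) → K) :
    (Fin (m + 1) → Γ) → K :=
  fun w => if (w ∘ a.f) ∘ a.s = w then φ (w ∘ a.f) else 0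

/-- Families of subspaces closed under the repetition of letters. -/
def Co (E : ∀ n, Submodule K ((Fin (n + 1) → Γ) → K)) : Prop :=
  ∀ m n (a : Adm m n) (φ : (Fin (n + 1) → Γ) → K), φ ∈ E n → push a φ ∈ E m

variable [LinearOrder Γ]

/-- The leading words. -/
def lw (E : ∀ n, Submodule K ((Fin (n + 1) → Γ) → K)) : Set (Word Γ) :=
  {w | ∃ φ ∈ E w.1, φ w.2 ≠ 0 ∧ ∀ x, LexLt w.2 x → φ x = 0}

theorem lw_up {E : ∀ n, Submodule K ((Fin (n + 1) → Γ) → K)} (hE : Co E) {v w : Word Γ}
    (h : Le v w) (hv : v ∈ lw E) : w ∈ lw E := by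
  obtain ⟨a, ha⟩ := h
  obtain ⟨φ, hφ, h1, h2⟩ := hv
  have hsf : (v.2 ∘ a.s) ∘ a.f = v.2 := by
    funext i; simp [a.sec]
  refine ⟨push a φ, hE _ _ a φ hφ, ?_, fun x hx => ?_⟩
  · rw [ha]
    unfold push
    rw [if_pos (by rw [hsf]), hsf]
    exact h1
  · unfold push
    split_ifs with hx'
    · apply h2
      rw [ha] at hx
      rcases LexLt.trichotomy v.2 (x ∘ a.f) with h3 | h3 | h3
      · exact h3
      · exfalso
        rw [h3, hx'] at hx
        exact LexLt.irrefl _ hx
      · exfalso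
        have h4 := h3.comp a
        rw [hx'] at h4
        exact LexLt.irrefl _ (h4.trans hx)
    · rfl

theorem lw_mono {E F : ∀ n, Submodule K ((Fin (n + 1) → Γ) → K)} (h : ∀ n, E n ≤ F n) :
    lw E ⊆ lw F := by
  rintro w ⟨φ, hφ, h1, h2⟩
  exact ⟨φ, h _ hφ, h1, h2⟩

theorem eq_of_lw [Finite Γ] {E F : ∀ n, Submodule K ((Fin (n + 1) → Γ) → K)}
    (h : ∀ n, E n ≤ F n) (hl : lw F ⊆ lw E) (n : ℕ) : E n = F n := by
  refine le_antisymm (h n) ?_
  have hwf : WellFounded (LexLt : (Fin (n + 1) → Γ) → (Fin (n + 1) → Γ) → Prop) := by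
    have : IsTrans (Fin (n + 1) → Γ) LexLt := ⟨fun _ _ _ => LexLt.trans⟩
    have : Std.Irrefl (LexLt : (Fin (n + 1) → Γ) → (Fin (n + 1) → Γ) → Prop) := ⟨LexLt.irrefl⟩
    exact Finite.wellFounded_of_trans_of_irrefl _
  have key : ∀ w : Fin (n + 1) → Γ, ∀ f ∈ F n, (∀ x, LexLt w x → f x = 0) → f ∈ E n := by
    intro w
    induction w using hwf.induction with
    | _ w ih =>
      intro f hf hz
      have step : ∀ f' ∈ F n, (∀ x, LexLt w x → f' x = 0) → f' w = 0 → f' ∈ E n := by
        intro f' hf' hz' hw0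
        by_cases h0 : f' = 0
        · rw [h0]; exact (E n).zero_mem
        · obtain ⟨w', hw', hmax⟩ := exists_lead f' h0
          have hlt : LexLt w' w := by
            rcases LexLt.trichotomy w' w with h1 | h1 | h1
            · exact h1
            · exfalso; apply hw'; rw [h1]; exact hw0
            · exfalso; exact hw' (hz' w' h1)
          exact ih w' hlt _ hf' hmax
      by_cases hfw : f w = 0
      · exact step f hf hz hfw
      · obtain ⟨g, hg, hgw, hgz⟩ := hl (show (⟨n, w⟩ : Word Γ) ∈ lw F from ⟨f, hf, hfw, hz⟩)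
        have h3 : f - (f w / g w) • g ∈ E n := by
          apply step
          · exact (F n).sub_mem hf ((F n).smul_mem _ (h n hg))
          · intro x hx
            simp [hz x hx, hgz x hx]
          · change f w - f w / g w * g w = 0
            rw [div_mul_cancel₀ _ hgw, sub_self]
        have := (E n).add_mem h3 ((E n).smul_mem (f w / g w) hg)
        simpa using this
  intro f hf
  by_cases h0 : f = 0
  · rw [h0]; exact (E n).zero_mem
  · obtain ⟨w, -, hmax⟩ := exists_lead f h0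
    exact key w f hf hmax

/-- The ascending chain condition. -/
theorem acc [Finite Γ] (E : ℕ → ∀ n, Submodule K ((Fin (n + 1) → Γ) → K))
    (hE : ∀ i, Co (E i)) (hmono : ∀ i j, i ≤ j → ∀ n, E i n ≤ E j n) :
    ∃ i, E (i + 1) = E i := by
  by_contra hcon
  push Not at hcon
  have h1 : ∀ i, ∃ w : Word Γ, w ∈ lw (E (i + 1)) ∧ w ∉ lw (E i) := by
    intro i
    by_contra h
    push Not at h
    exact hcon i (funext fun n => (eq_of_lw (hmono i (i + 1) (by omega)) h n).symm)
  choose w hw hw' using h1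
  obtain ⟨i, j, hij, hle⟩ := (wqo_word (Γ := Γ)) w
  have e1 : w i ∈ lw (E j) := lw_mono (hmono (i + 1) j hij) (hw i)
  exact hw' j (lw_up (hE j) hle e1)

end acc

end Pool.Agent.Q119.Clo
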