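import Mathlib.Order.ModularLattice
import Mathlib.Order.OrderIsoNat
import Mathlib.Order.Hom.Lattice
import Mathlib.Order.Atoms

set_option autoImplicit false

/-!
A modular lattice with both chain conditions with a family of lattice homomorphisms `ev k` that
eventually separates comparable elements: one of the homomorphisms separates all comparable
elements.
-/

namespace Pool.Agent.Q119.Clo

universe u v

theorem exists_level {L : Type u} [Lattice L] [BoundedOrder L] [IsModularLattice L]
    [WellFoundedLT L] [WellFoundedGT L] {β : ℕ → Type v} [∀ k, Lattice (β k)]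
    (ev : ∀ k, LatticeHom L (β k))
    (hsep : ∀ x y : L, x < y → ∃ k, ∀ k' ≥ k, ev k' x ≠ ev k' y) :
    ∃ k, ∀ x y : L, x ≤ y → ev k x = ev k y → x = y := by
  obtain ⟨a, ha0, n, han, hcov⟩ := exists_covBy_seq_of_wellFoundedLT_wellFoundedGT L
  rw [isMin_iff_eq_bot] at ha0
  rw [isMax_iff_eq_top] at han
  have hk : ∀ i, ∃ k, i < n → ∀ k' ≥ k, ev k' (a i) ≠ ev k' (a (i + 1)) := by
    intro i
    by_cases hi : i < n
    · obtain ⟨k, hk⟩ := hsep _ _ (hcov i hi).lt
      exact ⟨k, fun _ => hk⟩
    · exact ⟨0, fun h => absurd h hi⟩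
  choose K hK using hk
  refine ⟨(Finset.range n).sup K, fun x y hxy he => ?_⟩
  set k := (Finset.range n).sup K with hkdef
  have hne : ∀ i < n, ev k (a i) ≠ ev k (a (i + 1)) := fun i hi =>
    hK i hi k (Finset.le_sup (f := K) (Finset.mem_range.2 hi))
  have key : ∀ i ≤ n, x ⊓ a i = y ⊓ a i := by
    intro i
    induction i with
    | zero => intro _; rw [ha0, inf_bot_eq, inf_bot_eq]
    | succ i ih =>
      intro hi
      have ih' := ih (by omega)
      have hc := hcov i (by omega)
      have hle : a i ≤ a (i + 1) := hc.le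
      apply eq_of_le_of_inf_le_of_le_sup (z := a i)
      · exact inf_le_inf_right _ hxy
      · rw [inf_assoc, inf_eq_right.2 hle, ← ih']
        exact inf_le_inf_left _ hle
      · -- the join of `x ⊓ a (i+1)` with `a i`
        have h1 : a i ≤ x ⊓ a (i + 1) ⊔ a i := le_sup_right
        have h2 : x ⊓ a (i + 1) ⊔ a i ≤ a (i + 1) := sup_le inf_le_right hle
        rcases hc.eq_or_eq h1 h2 with h3 | h3
        · have h4 : a i ≤ y ⊓ a (i + 1) ⊔ a i := le_sup_right
          have h5 : y ⊓ a (i + 1) ⊔ a i ≤ a (i + 1) := sup_le inf_le_right hle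
          rcases hc.eq_or_eq h4 h5 with h6 | h6
          · rw [h3, ← h6]
            exact le_sup_left
          · exfalso
            apply hne i (by omega)
            have e1 : ev k (y ⊓ a (i + 1) ⊔ a i) = ev k (x ⊓ a (i + 1) ⊔ a i) := by
              simp only [map_sup, map_inf, he]
            rw [h6, h3] at e1
            exact e1.symm
        · rw [h3]
          exact inf_le_right
  have := key n le_rfl
  rwa [han, inf_top_eq, inf_top_eq] at this

end Pool.Agent.Q119.Clo
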