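import Pool.Agent.Q119.Clo.Chains
import Pool.Agent.Q119.Clo.FinLen

set_option autoImplicit false

/-!
The lattice of the families of subgroups of `(Fin (n + 1) → A) → B` closed under the substitution of
integer linear combinations of variables.
-/

namespace Pool.Agent.Q119.Clo

universe u v

variable (A : Type u) (B : Type v) [AddCommGroup A] [AddCommGroup B]

/-- Substitution of integer linear combinations of the variables. -/
def subst {A : Type u} {B : Type v} [AddCommGroup A] {m n : ℕ}
    (M : Fin (n + 1) → Fin (m + 1) → ℤ) (f : (Fin (n + 1) → A) → B) : (Fin (m + 1) → A) → B :=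
  fun x => f (fun i => ∑ j, M i j • x j)

/-- The family is closed under substitutions. -/
def IsFam (c : ∀ n, AddSubgroup ((Fin (n + 1) → A) → B)) : Prop :=
  ∀ m n (M : Fin (n + 1) → Fin (m + 1) → ℤ) (f : (Fin (n + 1) → A) → B), f ∈ c n → subst M f ∈ c m

variable {A B} in
theorem subst_add {m n : ℕ} (M : Fin (n + 1) → Fin (m + 1) → ℤ) (f g : (Fin (n + 1) → A) → B) :
    subst M (f + g) = subst M f + subst M g := rfl

omit [AddCommGroup B] in
variable {A B} in
/-- Substituting variables for variables. -/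
theorem subst_var {m n : ℕ} (s : Fin (n + 1) → Fin (m + 1)) (f : (Fin (n + 1) → A) → B) :
    subst (fun i j => if j = s i then (1 : ℤ) else 0) f = fun x => f (x ∘ s) := by
  funext x
  unfold subst
  congr 1
  funext i
  simp [ite_smul]

/-- The lattice of families. -/
def famLat : Sublattice (∀ n, AddSubgroup ((Fin (n + 1) → A) → B)) where
  carrier := {c | IsFam A B c}
  supClosed' := by
    intro c hc d hd m n M f hf
    rw [Pi.sup_apply, AddSubgroup.mem_sup] at hf ⊢
    obtain ⟨g, hg, h, hh, rfl⟩ := hf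
    exact ⟨_, hc m n M g hg, _, hd m n M h hh, rfl⟩
  infClosed' := by
    intro c hc d hd m n M f hf
    exact ⟨hc m n M f hf.1, hd m n M f hf.2⟩

/-- The type of families. -/
abbrev Fam : Type (max u v) := ↥(famLat A B)

variable {A B}

theorem Fam.le_def {x y : Fam A B} : x ≤ y ↔ ∀ n, x.1 n ≤ y.1 n := Iff.rfl

instance : IsModularLattice (Fam A B) :=
  ⟨fun {x} y {_z} hxz n =>
    IsModularLattice.sup_inf_le_assoc_of_le (x := x.1 n) (y.1 n) (hxz n)⟩

instance : BoundedOrder (Fam A B) where
  top := ⟨⊤, fun _ _ _ _ _ => trivial⟩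
  le_top _ _ := le_top
  bot := ⟨⊥, fun m n M f hf => by
    change f ∈ (⊥ : AddSubgroup _) at hf
    change subst M f ∈ (⊥ : AddSubgroup _)
    rw [AddSubgroup.mem_bot] at hf ⊢
    rw [hf]; rfl⟩
  bot_le _ _ := bot_le

/-- Evaluation at an arity. -/
def ev (A : Type u) (B : Type v) [AddCommGroup A] [AddCommGroup B] (k : ℕ) :
    LatticeHom (Fam A B) (AddSubgroup ((Fin (k + 1) → A) → B)) where
  toFun c := c.1 k
  map_sup' _ _ := rfl
  map_inf' _ _ := rfl

theorem sep (x y : Fam A B) (h : x < y) : ∃ k, ∀ k' ≥ k, ev A B k' x ≠ ev A B k' y := by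
  have h1 : ¬ y ≤ x := not_le_of_gt h
  rw [Fam.le_def] at h1
  push Not at h1
  obtain ⟨k, hk⟩ := h1
  obtain ⟨f, hf, hf'⟩ := SetLike.not_le_iff_exists.1 hk
  refine ⟨k, fun k' hk' he => hf' ?_⟩
  have hle : k + 1 ≤ k' + 1 := by omega
  have h2 : (fun z : Fin (k' + 1) → A => f (z ∘ Fin.castLE hle)) ∈ y.1 k' := by
    rw [← subst_var]
    exact y.2 _ _ _ _ hf
  have h3 : (fun z : Fin (k' + 1) → A => f (z ∘ Fin.castLE hle)) ∈ x.1 k' := by
    have : x.1 k' = y.1 k' := he
    rw [this]; exact h2
  have h4 := x.2 _ _ (fun (j : Fin (k' + 1)) (i : Fin (k + 1)) =>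
    if j = Fin.castLE hle i then (1 : ℤ) else 0) _ h3
  have h5 : subst (fun (j : Fin (k' + 1)) (i : Fin (k + 1)) =>
    if j = Fin.castLE hle i then (1 : ℤ) else 0)
      (fun z : Fin (k' + 1) → A => f (z ∘ Fin.castLE hle)) = f := by
    funext z
    unfold subst
    simp only
    congr 1
    funext i
    simp [(Fin.castLE_injective hle).eq_iff]
  rw [h5] at h4
  exact h4

theorem contra_of_fam (c : Fam A B) : Contra c.1 := by
  intro m n a f hf
  rw [← subst_var]
  exact c.2 _ _ _ _ hf

/-- The descending chain condition. -/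
instance wfLT [Finite A] [Finite B] : WellFoundedLT (Fam A B) := by
  classical
  let _ : LinearOrder A := LinearOrder.lift' (Finite.equivFin A) (Finite.equivFin A).injective
  refine ⟨RelEmbedding.wellFounded_iff_isEmpty.2 ⟨fun F => ?_⟩⟩
  have hanti : StrictAnti (fun i : ℕ => F i) := fun i j hij => F.map_rel_iff.2 hij
  obtain ⟨i, hi⟩ := dcc (fun i => (F i).1) (fun i => contra_of_fam _)
    (fun i j hij n => (hanti.antitone hij : F j ≤ F i) n)
  have h1 : F (i + 1) < F i := hanti (by omega)
  exact absurd (Subtype.ext hi : F (i + 1) = F i) h1.ne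

end Pool.Agent.Q119.Clo
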