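import Pool.Agent.Q119.Clo.Transform

set_option autoImplicit false

/-!
The ascending chain condition for the families with values in an arbitrary finite group of coprime
order, and the finiteness of the set of clonoids.
-/

namespace Pool.Agent.Q119.Clo

universe u v w z t

section maps

variable {A : Type u} [AddCommGroup A] {B₁ : Type v} {B : Type w} {B₂ : Type z} [AddCommGroup B₁]
  [AddCommGroup B] [AddCommGroup B₂]

/-- Pulling back a family along a homomorphism. -/
def Fam.comap (g : B₁ →+ B) (c : Fam A B) : Fam A B₁ :=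
  ⟨fun n => (c.1 n).comap (AddMonoidHom.compLeft g (Fin (n + 1) → A)), by
    intro m n M f hf
    exact c.2 m n M _ hf⟩

/-- Pushing a family along a homomorphism. -/
def Fam.map (g : B →+ B₂) (c : Fam A B) : Fam A B₂ :=
  ⟨fun n => (c.1 n).map (AddMonoidHom.compLeft g (Fin (n + 1) → A)), by
    rintro m n M f ⟨f', hf', rfl⟩
    exact ⟨_, c.2 m n M _ hf', rfl⟩⟩

theorem Fam.mem_comap (g : B₁ →+ B) (c : Fam A B) {n : ℕ} (f : (Fin (n + 1) → A) → B₁) :
    f ∈ (Fam.comap g c).1 n ↔ (fun x => g (f x)) ∈ c.1 n := Iff.rfl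

theorem Fam.mem_map (g : B →+ B₂) (c : Fam A B) {n : ℕ} (f : (Fin (n + 1) → A) → B₂) :
    f ∈ (Fam.map g c).1 n ↔ ∃ f' ∈ c.1 n, (fun x => g (f' x)) = f := Iff.rfl

theorem Fam.comap_mono (g : B₁ →+ B) {c d : Fam A B} (h : c ≤ d) :
    Fam.comap g c ≤ Fam.comap g d := fun n _ hf => h n hf

theorem Fam.map_mono (g : B →+ B₂) {c d : Fam A B} (h : c ≤ d) :
    Fam.map g c ≤ Fam.map g d := by
  rintro n _ ⟨f', hf', rfl⟩
  exact ⟨f', h n hf', rfl⟩

theorem Fam.eq_of_exact (i : B₁ →+ B) (q : B →+ B₂) (hiq : ∀ b, q b = 0 → ∃ b', i b' = b)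
    {c d : Fam A B} (h : c ≤ d) (h1 : Fam.comap i c = Fam.comap i d)
    (h2 : Fam.map q c = Fam.map q d) : c = d := by
  refine le_antisymm h (fun n f hf => ?_)
  have h3 : (fun x => q (f x)) ∈ (Fam.map q c).1 n := by
    rw [h2]; exact ⟨f, hf, rfl⟩
  obtain ⟨g, hg, hgf⟩ := (Fam.mem_map q c _).1 h3
  have h4 : ∀ x, ∃ b', i b' = f x - g x := by
    intro x
    apply hiq
    rw [map_sub, sub_eq_zero]
    exact (congrFun hgf x).symm
  choose k hk using h4
  have h5 : k ∈ (Fam.comap i d).1 n := by
    rw [Fam.mem_comap]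
    have : (fun x => i (k x)) = f - g := by funext x; exact hk x
    rw [this]
    exact (d.1 n).sub_mem hf (h n hg)
  rw [← h1, Fam.mem_comap] at h5
  have h6 : f = (fun x => i (k x)) + g := by
    funext x
    rw [Pi.add_apply, hk x]; abel
  rw [h6]
  exact (c.1 n).add_mem h5 hg

end maps

/-- The ascending chain condition. -/
theorem wfGT (A : Type u) [AddCommGroup A] [Finite A] : ∀ (n : ℕ) (B : Type v) [AddCommGroup B]
    [Finite B], Nat.card B = n → (Nat.card A).Coprime (Nat.card B) → WellFoundedGT (Fam A B) := by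
  intro n
  induction n using Nat.strong_induction_on with
  | _ n ih =>
    intro B _ _ hn hco
    rcases subsingleton_or_nontrivial B with hs | hnt
    · have : Subsingleton (Fam A B) := by
        refine ⟨fun c d => le_antisymm (fun n f _ => ?_) (fun n f _ => ?_)⟩
        · rw [Subsingleton.elim f 0]; exact (d.1 n).zero_mem
        · rw [Subsingleton.elim f 0]; exact (c.1 n).zero_mem
      exact ⟨⟨fun a => ⟨a, fun b hb => absurd (Subsingleton.elim a b) (ne_of_lt hb)⟩⟩⟩
    · have h1 : Nat.card B ≠ 1 := by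
        have := Finite.one_lt_card (α := B)
        omega
      obtain ⟨p, hp, hpB⟩ := Nat.exists_prime_and_dvd h1
      have : Fact p.Prime := ⟨hp⟩
      obtain ⟨b, hb⟩ := exists_prime_addOrderOf_dvd_card' p hpB
      set N := AddSubgroup.zmultiples b with hN
      have hcard : Nat.card N = p := by rw [hN, Nat.card_zmultiples, hb]
      have hfact : Fact (Nat.card N).Prime := ⟨by rw [hcard]; exact hp⟩
      let e : ZMod (Nat.card N) ≃+ N := zmodAddCyclicAddEquiv inferInstance
      have w1 : WellFoundedGT (Fam A (ZMod (Nat.card N))) := by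
        apply wfGT_zmod
        rw [hcard]
        exact Nat.Coprime.coprime_dvd_right hpB hco
      have hmul : Nat.card B = Nat.card (B ⧸ N) * Nat.card N :=
        AddSubgroup.card_eq_card_quotient_mul_card_addSubgroup N
      have hpos : 0 < Nat.card (B ⧸ N) := Nat.card_pos
      have hlt : Nat.card (B ⧸ N) < n := by
        rw [← hn, hmul, hcard]
        exact (Nat.lt_mul_iff_one_lt_right hpos).2 hp.one_lt
      have w2 : WellFoundedGT (Fam A (B ⧸ N)) := by
        apply ih _ hlt _ rfl
        exact Nat.Coprime.coprime_dvd_right (Dvd.intro _ hmul.symm) hco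
      let i : ZMod (Nat.card N) →+ B := N.subtype.comp e.toAddMonoidHom
      let q : B →+ B ⧸ N := QuotientAddGroup.mk' N
      have hstrict : StrictMono (fun c : Fam A B => (Fam.comap i c, Fam.map q c)) := by
        intro c d hcd
        refine lt_of_le_of_ne ⟨Fam.comap_mono i hcd.le, Fam.map_mono q hcd.le⟩ (fun h => ?_)
        have h1 := congrArg Prod.fst h
        have h2 := congrArg Prod.snd h
        refine hcd.ne (Fam.eq_of_exact i q ?_ hcd.le h1 h2)
        intro b hb
        have hb' : b ∈ N := (QuotientAddGroup.eq_zero_iff b).1 hb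
        exact ⟨e.symm ⟨b, hb'⟩, by simp [i]⟩
      exact hstrict.wellFoundedGT

/-- One arity determines all the families. -/
theorem exists_arity (A : Type u) [AddCommGroup A] [Finite A] (B : Type v) [AddCommGroup B]
    [Finite B] (h : (Nat.card A).Coprime (Nat.card B)) :
    ∃ k, ∀ c d : Fam A B, c.1 k ≤ d.1 k → c ≤ d := by
  have : WellFoundedGT (Fam A B) := wfGT A _ B rfl h
  obtain ⟨k, hk⟩ := exists_level (ev A B) sep
  refine ⟨k, fun c d hcd => ?_⟩
  have h1 : c ⊓ d = c := by
    apply hk _ _ inf_le_left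
    change c.1 k ⊓ d.1 k = c.1 k
    exact inf_eq_left.2 hcd
  exact inf_eq_left.1 h1

end Pool.Agent.Q119.Clo
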