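import Pool.Agent.Q119.Clo.Fam

set_option autoImplicit false

/-!
The Fourier transform turns families closed under substitutions into families closed under the
repetition of letters.
-/

namespace Pool.Agent.Q119.Clo

universe u v

section transform

variable (A : Type u) [AddCommGroup A] [Finite A] (K : Type v) [Field K]

/-- The characters of `A`. -/
abbrev Ch : Type (max u v) := Multiplicative A →* Kˣ

variable {A K}

/-- The character of `A ^ (n + 1)` given by a word of characters. -/
def chr {n : ℕ} (w : Fin (n + 1) → Ch A K) : Multiplicative (Fin (n + 1) → A) →* K where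
  toFun x := ∏ i, (w i (Multiplicative.ofAdd (x.toAdd i)) : K)
  map_one' := by simp
  map_mul' x y := by
    rw [← Finset.prod_mul_distrib]
    refine Finset.prod_congr rfl fun i _ => ?_
    rw [toAdd_mul, Pi.add_apply, ofAdd_add, map_mul, Units.val_mul]

omit [Finite A] in
theorem chr_injective {n : ℕ} :
    Function.Injective (chr : (Fin (n + 1) → Ch A K) → (Multiplicative (Fin (n + 1) → A) →* K)) := by
  classical
  intro v w h
  funext i
  ext a
  have h1 := DFunLike.congr_fun h (Multiplicative.ofAdd (Pi.single i a))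
  simp only [chr, MonoidHom.coe_mk, OneHom.coe_mk, toAdd_ofAdd] at h1
  rw [Finset.prod_eq_single i, Finset.prod_eq_single i] at h1
  · simpa using h1
  · intro j _ hj; simp [hj]
  · intro hi; exact absurd (Finset.mem_univ i) hi
  · intro j _ hj; simp [hj]
  · intro hi; exact absurd (Finset.mem_univ i) hi

noncomputable instance : Fintype (Ch A K) := by
  have : Finite (Ch A K) := inferInstance
  exact Fintype.ofFinite _

/-- The inverse Fourier transform. -/
noncomputable def T {n : ℕ} : ((Fin (n + 1) → Ch A K) → K) →ₗ[K] ((Fin (n + 1) → A) → K) where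
  toFun φ x := ∑ w, φ w * chr w (Multiplicative.ofAdd x)
  map_add' φ ψ := by
    funext x
    simp [add_mul, Finset.sum_add_distrib]
  map_smul' c φ := by
    funext x
    simp [mul_assoc, Finset.mul_sum]

theorem T_apply {n : ℕ} (φ : (Fin (n + 1) → Ch A K) → K) (x : Fin (n + 1) → A) :
    T φ x = ∑ w, φ w * chr w (Multiplicative.ofAdd x) := rfl

theorem T_surjective [HasEnoughRootsOfUnity K (Monoid.exponent (Multiplicative A))] (n : ℕ) :
    Function.Surjective (T : ((Fin (n + 1) → Ch A K) → K) →ₗ[K] ((Fin (n + 1) → A) → K)) := by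
  classical
  have : Fintype A := Fintype.ofFinite A
  have hcard : Nat.card (Ch A K) = Nat.card A := by
    have := CommGroup.card_monoidHom_of_hasEnoughRootsOfUnity (Multiplicative A) K
    simpa using this
  let e : (Fin (n + 1) → Ch A K) → ((Fin (n + 1) → A) → K) :=
    fun w x => chr w (Multiplicative.ofAdd x)
  have hli : LinearIndependent K e := by
    have h1 := (linearIndependent_monoidHom (Multiplicative (Fin (n + 1) → A)) K).comp
      (chr : (Fin (n + 1) → Ch A K) → _) chr_injective
    exact h1
  have hspan : Submodule.span K (Set.range e) = ⊤ := by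
    apply hli.span_eq_top_of_card_eq_finrank
    rw [Module.finrank_fintype_fun_eq_card, Fintype.card_fun, Fintype.card_fun,
      ← Nat.card_eq_fintype_card (α := Ch A K), ← Nat.card_eq_fintype_card (α := A), hcard]
  intro f
  have hf : f ∈ Submodule.span K (Set.range e) := by rw [hspan]; trivial
  rw [Submodule.mem_span_range_iff_exists_fun] at hf
  obtain ⟨c, hc⟩ := hf
  refine ⟨c, ?_⟩
  rw [← hc]
  funext x
  rw [T_apply, Finset.sum_apply]
  rfl

theorem T_push {m n : ℕ} (a : Adm m n) (φ : (Fin (n + 1) → Ch A K) → K)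
    (y : Fin (m + 1) → A) :
    T (push a φ) y = T φ (fun i => ∑ j, (if a.s j = i then (1 : ℤ) else 0) • y j) := by
  classical
  rw [T_apply, T_apply]
  symm
  have hsf : ∀ v : Fin (n + 1) → Ch A K, (v ∘ a.s) ∘ a.f = v := by
    intro v; funext i; simp [a.sec]
  apply Fintype.sum_of_injective (fun v : Fin (n + 1) → Ch A K => v ∘ a.s)
  · intro v w h
    have h' : v ∘ a.s = w ∘ a.s := h
    rw [← hsf v, h', hsf]
  · intro w hw
    have : ¬ ((w ∘ a.f) ∘ a.s = w) := fun h => hw ⟨w ∘ a.f, h⟩
    unfold push
    rw [if_neg this, zero_mul]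
  · intro v
    unfold push
    rw [if_pos (by rw [hsf]), hsf]
    congr 1
    simp only [chr, MonoidHom.coe_mk, OneHom.coe_mk, toAdd_ofAdd, Function.comp_apply]
    rw [← Finset.prod_fiberwise (s := Finset.univ) (g := a.s)]
    refine Finset.prod_congr rfl fun i _ => ?_
    have h1 : ∑ j, (if a.s j = i then (1 : ℤ) else 0) • y j
        = ∑ j ∈ Finset.univ.filter (fun j => a.s j = i), y j := by
      rw [Finset.sum_filter]
      refine Finset.sum_congr rfl fun j _ => ?_
      split_ifs <;> simp
    rw [h1, ofAdd_sum, map_prod, Units.coe_prod]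
    refine Finset.prod_congr rfl fun j hj => ?_
    rw [(Finset.mem_filter.1 hj).2]

end transform

section field

variable {A : Type u} [AddCommGroup A] [Finite A] {p : ℕ} [Fact p.Prime]
variable (K : Type) [Field K] [Algebra (ZMod p) K]

/-- The span over the field extension. -/
def spanK (c : Fam A (ZMod p)) (n : ℕ) : Submodule K ((Fin (n + 1) → A) → K) :=
  Submodule.span K {h | ∃ f ∈ c.1 n, h = fun x => algebraMap (ZMod p) K (f x)}

omit [Finite A] in
theorem mem_of_spanK (c : Fam A (ZMod p)) (n : ℕ) (f : (Fin (n + 1) → A) → ZMod p)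
    (hf : (fun x => algebraMap (ZMod p) K (f x)) ∈ spanK K c n) : f ∈ c.1 n := by
  obtain ⟨π, hπ⟩ := (Algebra.linearMap (ZMod p) K).exists_leftInverse_of_injective
    (LinearMap.ker_eq_bot.2 (algebraMap (ZMod p) K).injective)
  have hπ' : ∀ t : ZMod p, π (algebraMap (ZMod p) K t) = t := fun t =>
    LinearMap.congr_fun hπ t
  have key : ∀ h ∈ spanK K c n, ∀ k : K, (fun x => π (k * h x)) ∈ c.1 n := by
    intro h hh
    induction hh using Submodule.span_induction with
    | mem h hh =>
      obtain ⟨g, hg, rfl⟩ := hh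
      intro k
      have h1 : (fun x => π (k * algebraMap (ZMod p) K (g x))) = (π k).val • g := by
        funext x
        rw [mul_comm, ← Algebra.smul_def, map_smul, Pi.smul_apply, nsmul_eq_mul,
          ZMod.natCast_zmod_val, smul_eq_mul, mul_comm]
      rw [h1]
      exact (c.1 n).nsmul_mem hg _
    | zero =>
      intro k
      have : (fun x : Fin (n + 1) → A => π (k * (0 : (Fin (n + 1) → A) → K) x)) = 0 := by
        funext x; simp
      rw [this]; exact (c.1 n).zero_mem
    | add h1 h2 _ _ ih1 ih2 =>
      intro k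
      have : (fun x : Fin (n + 1) → A => π (k * (h1 + h2) x))
          = (fun x => π (k * h1 x)) + fun x => π (k * h2 x) := by
        funext x; simp [mul_add]
      rw [this]
      exact (c.1 n).add_mem (ih1 k) (ih2 k)
    | smul t h _ ih =>
      intro k
      have : (fun x : Fin (n + 1) → A => π (k * (t • h) x)) = fun x => π ((k * t) * h x) := by
        funext x; simp [mul_assoc]
      rw [this]
      exact ih _
  have := key _ hf 1
  simpa [hπ'] using this

/-- The transformed family. -/
noncomputable def EE (c : Fam A (ZMod p)) (n : ℕ) : Submodule K ((Fin (n + 1) → Ch A K) → K) :=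
  (spanK K c n).comap T

theorem co_EE (c : Fam A (ZMod p)) : Co (EE K c) := by
  intro m n a φ hφ
  change T (push a φ) ∈ spanK K c m
  change T φ ∈ spanK K c n at hφ
  have h1 : T (push a φ) = (fun y => T φ (fun i => ∑ j, (if a.s j = i then (1 : ℤ) else 0) • y j)) := by
    funext y; exact T_push a φ y
  rw [h1]
  generalize T φ = h at hφ
  induction hφ using Submodule.span_induction with
  | mem h hh =>
    obtain ⟨g, hg, rfl⟩ := hh
    exact Submodule.subset_span ⟨subst (fun i j => if a.s j = i then (1 : ℤ) else 0) g,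
      c.2 _ _ _ _ hg, rfl⟩
  | zero => exact Submodule.zero_mem _
  | add h1 h2 _ _ ih1 ih2 => exact Submodule.add_mem _ ih1 ih2
  | smul t h _ ih => exact Submodule.smul_mem _ t ih

theorem EE_mono {c d : Fam A (ZMod p)} (h : c ≤ d) (n : ℕ) : EE K c n ≤ EE K d n := by
  apply Submodule.comap_mono
  apply Submodule.span_mono
  rintro _ ⟨f, hf, rfl⟩
  exact ⟨f, h n hf, rfl⟩

theorem EE_strict [HasEnoughRootsOfUnity K (Monoid.exponent (Multiplicative A))]
    {c d : Fam A (ZMod p)} (h : c < d) : EE K c ≠ EE K d := by
  intro he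
  have h1 : ¬ d ≤ c := not_le_of_gt h
  rw [Fam.le_def] at h1
  push Not at h1
  obtain ⟨n, hn⟩ := h1
  obtain ⟨f, hf, hf'⟩ := SetLike.not_le_iff_exists.1 hn
  obtain ⟨φ, hφ⟩ := T_surjective (A := A) (K := K) n (fun x => algebraMap (ZMod p) K (f x))
  apply hf'
  apply mem_of_spanK K
  rw [← hφ]
  have h2 : φ ∈ EE K d n := by
    change T φ ∈ spanK K d n
    rw [hφ]
    exact Submodule.subset_span ⟨f, hf, rfl⟩
  rw [← he] at h2
  exact h2

end field

/-- The ascending chain condition for `B = ZMod p`. -/
theorem wfGT_zmod (A : Type u) [AddCommGroup A] [Finite A] (p : ℕ) [hp : Fact p.Prime]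
    (h : (Nat.card A).Coprime p) : WellFoundedGT (Fam A (ZMod p)) := by
  classical
  have hexp : NeZero ((Monoid.exponent (Multiplicative A) : ℕ) : ZMod p) := by
    refine ⟨fun h0 => ?_⟩
    rw [ZMod.natCast_eq_zero_iff] at h0
    have h1 : Monoid.exponent (Multiplicative A) ∣ Nat.card (Multiplicative A) :=
      Group.exponent_dvd_nat_card
    have h2 : p ∣ Nat.card A := by
      exact h0.trans h1
    exact (Nat.Prime.coprime_iff_not_dvd hp.out).1 h.symm h2
  let K := AlgebraicClosure (ZMod p)
  have hK : HasEnoughRootsOfUnity K (Monoid.exponent (Multiplicative A)) :=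
    AlgebraicClosure.hasEnoughRootsOfUnity (ZMod p) _
  let _ : LinearOrder (Ch A K) :=
    LinearOrder.lift' (Finite.equivFin (Ch A K)) (Finite.equivFin (Ch A K)).injective
  refine ⟨RelEmbedding.wellFounded_iff_isEmpty.2 ⟨fun F => ?_⟩⟩
  have hmono : StrictMono (fun i : ℕ => F i) := fun i j hij => F.map_rel_iff.2 hij
  obtain ⟨i, hi⟩ := acc (fun i => EE K (F i)) (fun i => co_EE K _)
    (fun i j hij n => EE_mono K (hmono.monotone hij) n)
  exact EE_strict K (hmono (show i < i + 1 by omega)) hi.symm

end Pool.Agent.Q119.Clo
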