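import Mathlib

set_option autoImplicit false

/-!
Words over a finite alphabet with the order `v ≤ w` if `w` arises from `v` by repeating letters,
without changing the order of the first occurrences (the order of the category of ordered
surjections). It is a well-quasi-order.
-/

namespace Pool.Agent.Q119.Clo

universe u

variable {Γ : Type u}

/-- Nonempty words. -/
abbrev Word (Γ : Type u) : Type u := Σ n : ℕ, (Fin (n + 1) → Γ)

/-- An ordered surjection `s : Fin (m + 1) → Fin (n + 1)`, `f i` is the least element of the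
fibre of `i`. -/
structure Adm (m n : ℕ) where
  /-- the surjection -/
  s : Fin (m + 1) → Fin (n + 1)
  /-- the least elements of the fibres -/
  f : Fin (n + 1) → Fin (m + 1)
  mono : StrictMono f
  sec : ∀ i, s (f i) = i
  le : ∀ j, f (s j) ≤ j

/-- `w` arises from `v` by repeating letters. -/
def Le (v w : Word Γ) : Prop := ∃ a : Adm w.1 v.1, w.2 = v.2 ∘ a.s

theorem Le.refl (v : Word Γ) : Le v v :=
  ⟨⟨id, id, strictMono_id, fun _ => rfl, fun _ => le_rfl⟩, rfl⟩

theorem Le.trans {u v w : Word Γ} (h1 : Le u v) (h2 : Le v w) : Le u w := by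
  obtain ⟨a, ha⟩ := h1
  obtain ⟨b, hb⟩ := h2
  refine ⟨⟨a.s ∘ b.s, b.f ∘ a.f, b.mono.comp a.mono, fun i => ?_, fun j => ?_⟩, ?_⟩
  · simp [b.sec, a.sec]
  · exact (b.mono.monotone (a.le _)).trans (b.le _)
  · rw [hb, ha]; rfl

instance : IsPreorder (Word Γ) Le where
  refl := Le.refl
  trans _ _ _ := Le.trans

theorem exists_strictMono_of_sublist {β : Type u} {a b : ℕ} (p : Fin a → β) (q : Fin b → β)
    (h : List.Sublist (List.ofFn p) (List.ofFn q)) :
    ∃ f : Fin a → Fin b, StrictMono f ∧ ∀ i, p i = q (f i) := by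
  obtain ⟨f, hf⟩ := List.sublist_iff_exists_fin_orderEmbedding_get_eq.1 h
  refine ⟨fun i => Fin.cast (by simp) (f (Fin.cast (by simp) i)), ?_, ?_⟩
  · intro i j hij
    have : f (Fin.cast (by simp) i) < f (Fin.cast (by simp) j) := f.strictMono hij
    exact this
  · intro i
    have h1 := hf (Fin.cast (by simp) i)
    simp only [List.get_ofFn] at h1
    exact h1

open Classical in
/-- The letters together with the information whether the letter occurs for the first time. -/
noncomputable def enrich (w : Word Γ) : List (Γ × Bool) :=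
  List.ofFn (fun i => (w.2 i, decide (∀ j < i, w.2 j ≠ w.2 i)))

theorem le_of_enrich {v w : Word Γ} (h : List.Sublist (enrich v) (enrich w))
    (hr : Set.range v.2 = Set.range w.2) : Le v w := by
  classical
  obtain ⟨f, hf, hfe⟩ := exists_strictMono_of_sublist _ _ h
  have h1 : ∀ i, v.2 i = w.2 (f i) := fun i => congrArg Prod.fst (hfe i)
  have h2 : ∀ i, (∀ j < i, v.2 j ≠ v.2 i) ↔ (∀ j < f i, w.2 j ≠ w.2 (f i)) := by
    intro i
    have := congrArg Prod.snd (hfe i)
    simpa using this
  -- the first occurrence in `w` of a letter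
  have hfirst : ∀ j : Fin (w.1 + 1), ∃ j₀ ≤ j, w.2 j₀ = w.2 j ∧ ∀ k < j₀, w.2 k ≠ w.2 j₀ := by
    intro j
    have hne : (Finset.univ.filter (fun k => w.2 k = w.2 j)).Nonempty := ⟨j, by simp⟩
    refine ⟨(Finset.univ.filter (fun k => w.2 k = w.2 j)).min' hne, ?_, ?_, ?_⟩
    · exact Finset.min'_le _ _ (by simp)
    · have := Finset.min'_mem _ hne
      simpa using this
    · intro k hk hk'
      have hm := Finset.min'_mem _ hne
      rw [Finset.mem_filter] at hm
      have : (Finset.univ.filter (fun k => w.2 k = w.2 j)).min' hne ≤ k :=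
        Finset.min'_le _ _ (by simp [hk', hm.2])
      exact absurd hk (not_lt.2 this)
  have hfirstv : ∀ j : Fin (v.1 + 1), ∃ j₀ ≤ j, v.2 j₀ = v.2 j ∧ ∀ k < j₀, v.2 k ≠ v.2 j₀ := by
    intro j
    have hne : (Finset.univ.filter (fun k => v.2 k = v.2 j)).Nonempty := ⟨j, by simp⟩
    refine ⟨(Finset.univ.filter (fun k => v.2 k = v.2 j)).min' hne, ?_, ?_, ?_⟩
    · exact Finset.min'_le _ _ (by simp)
    · have := Finset.min'_mem _ hne
      simpa using this
    · intro k hk hk'
      have hm := Finset.min'_mem _ hne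
      rw [Finset.mem_filter] at hm
      have : (Finset.univ.filter (fun k => v.2 k = v.2 j)).min' hne ≤ k :=
        Finset.min'_le _ _ (by simp [hk', hm.2])
      exact absurd hk (not_lt.2 this)
  -- every first occurrence in `w` is in the image of `f`
  have himg : ∀ j : Fin (w.1 + 1), ∃ i, f i ≤ j ∧ v.2 i = w.2 j := by
    intro j
    obtain ⟨j₀, hj₀, he, hmin⟩ := hfirst j
    have hmem : w.2 j₀ ∈ Set.range v.2 := by rw [hr]; exact ⟨j₀, rfl⟩
    obtain ⟨i, hi⟩ := hmem
    obtain ⟨i₀, -, hie, himin⟩ := hfirstv i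
    have h3 := (h2 i₀).1 himin
    have h4 : w.2 (f i₀) = w.2 j₀ := by rw [← h1, hie, hi]
    have h5 : f i₀ = j₀ := by
      rcases lt_trichotomy (f i₀) j₀ with hlt | heq | hgt
      · exact absurd h4 (hmin _ hlt)
      · exact heq
      · exact absurd h4.symm (h3 _ hgt)
    exact ⟨i₀, h5.le.trans hj₀, by rw [h1, h4, he]⟩
  choose t ht1 ht2 using himg
  let s : Fin (w.1 + 1) → Fin (v.1 + 1) := fun j => if h : ∃ i, f i = j then h.choose else t j
  have hs1 : ∀ i, s (f i) = i := by
    intro i
    have hex : ∃ i', f i' = f i := ⟨i, rfl⟩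
    have : s (f i) = hex.choose := dif_pos hex
    rw [this]
    exact hf.injective hex.choose_spec
  refine ⟨⟨s, f, hf, hs1, fun j => ?_⟩, ?_⟩
  · by_cases hex : ∃ i, f i = j
    · obtain ⟨i, rfl⟩ := hex
      rw [hs1]
    · have : s j = t j := dif_neg hex
      rw [this]
      exact ht1 j
  · funext j
    change w.2 j = v.2 (s j)
    by_cases hex : ∃ i, f i = j
    · obtain ⟨i, rfl⟩ := hex
      rw [hs1, h1]
    · have : s j = t j := dif_neg hex
      rw [this, ht2]

theorem wqo_word [Finite Γ] : WellQuasiOrdered (Le (Γ := Γ)) := by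
  classical
  have hfin : (Set.univ : Set (Γ × Bool)).PartiallyWellOrderedOn (· = ·) :=
    Set.Finite.partiallyWellOrderedOn Set.finite_univ
  have hig := Set.PartiallyWellOrderedOn.partiallyWellOrderedOn_sublistForall₂
    (α := Γ × Bool) (· = ·) hfin
  have hig' : WellQuasiOrdered
      (List.SublistForall₂ (α := Γ × Bool) (β := Γ × Bool) (· = ·)) := fun F =>
    hig.exists_lt (f := F) (fun n x _ => Set.mem_univ x)
  have hset : WellQuasiOrdered (fun S T : Set Γ => S = T) := Finite.wellQuasiOrdered _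
  haveI hrefl : Std.Refl (List.SublistForall₂ (α := Γ × Bool) (β := Γ × Bool) (· = ·)) :=
    List.SublistForall₂.is_refl
  haveI htrans : IsTrans _ (List.SublistForall₂ (α := Γ × Bool) (β := Γ × Bool) (· = ·)) :=
    List.SublistForall₂.is_trans
  haveI : IsPreorder _ (List.SublistForall₂ (α := Γ × Bool) (β := Γ × Bool) (· = ·)) :=
    { refl := hrefl.refl, trans := htrans.trans }
  have hprod := WellQuasiOrdered.prod hig' hset
  intro W
  obtain ⟨m, n, hmn, h1, h2⟩ := hprod (fun n => (enrich (W n), Set.range (W n).2))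
  refine ⟨m, n, hmn, le_of_enrich ?_ h2⟩
  obtain ⟨l, hl, hl'⟩ := List.sublistForall₂_iff.1 h1
  rw [List.forall₂_eq_eq_eq] at hl
  subst hl
  exact hl'

end Pool.Agent.Q119.Clo
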